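import Mathlib
import Pool.Agent.R859.QB.Main

/-!
# A cyclic q-binomial sum

The quotient of the cyclic sum is a Laurent polynomial in `q` with integer coefficients, and for
`0 ≤ j ≤ m` its coefficients are nonnegative.
-/

set_option autoImplicit false

open Finset

namespace Pool.Agent.Results.MP_62f119_co.CyclicSum

noncomputable section

/-- the indeterminate of `ℚ(q)` -/
def q : RatFunc ℚ := RatFunc.X

/-- the `q`-number `[n]` -/
def qnum (n : ℕ) : RatFunc ℚ := (1 - q ^ n) / (1 - q)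

/-- the Gaussian binomial coefficient -/
def qbinom (N k : ℕ) : RatFunc ℚ :=
  if k ≤ N then ∏ i ∈ Icc 1 k, (1 - q ^ (N - k + i)) / (1 - q ^ i) else 0

/-- the weight `w_k = q^(j k² - (r+1) k) [2k] [k]^(2r)` -/
def w (j : ℤ) (r k : ℕ) : RatFunc ℚ :=
  q ^ (j * (k : ℤ) ^ 2 - ((r : ℤ) + 1) * k) * qnum (2 * k) * qnum k ^ (2 * r)

/-- the product `P_k` over the cyclic sequence `n 0, ..., n (m-1)` with `m = M + 1`; the index
`i + 1` is taken modulo `M + 1` -/
def P {M : ℕ} (n : Fin (M + 1) → ℕ) (k : ℕ) : RatFunc ℚ :=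
  ∏ i : Fin (M + 1), qbinom (n (i + 1) + n i) (k + n i)

/-- the quotient `S` -/
def S {M : ℕ} (n : Fin (M + 1) → ℕ) (j : ℤ) (a r : ℕ) : RatFunc ℚ :=
  (∑ k ∈ Icc a (n 0), w j r k * P n k) /
    (qnum (n (Fin.last M) + a) * qbinom (n (Fin.last M) + n 0) (n 0 - a))

theorem one_sub_ne {n : ℕ} (hn : n ≠ 0) : (1 - q ^ n : RatFunc ℚ) ≠ 0 := by
  have h1 := Pool.Agent.R859.QB.one_sub_q_mul n
  intro h2
  have h3 : (1 - Pool.Agent.R859.QB.q) * Pool.Agent.R859.QB.qn n = 0 := by rw [h1]; exact h2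
  rcases mul_eq_zero.1 h3 with h4 | h4
  · have h5 : (1 : RatFunc ℚ) = RatFunc.X := sub_eq_zero.1 h4
    rw [← RatFunc.algebraMap_X, ← map_one (algebraMap (Polynomial ℚ) (RatFunc ℚ))] at h5
    have h6 := RatFunc.algebraMap_injective ℚ h5
    have h7 := congrArg (fun p : Polynomial ℚ => p.coeff 0) h6
    simp at h7
  · exact Pool.Agent.R859.QB.qn_ne_zero hn h4

theorem qnum_eq (n : ℕ) : qnum n = Pool.Agent.R859.QB.qn n := by
  have h1 : (1 - q : RatFunc ℚ) ≠ 0 := by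
    have := one_sub_ne one_ne_zero
    rwa [pow_one] at this
  rw [qnum, div_eq_iff h1, mul_comm]
  exact (Pool.Agent.R859.QB.one_sub_q_mul n).symm

theorem prod_eq (b : ℕ) : ∀ k : ℕ, (∏ i ∈ Icc 1 k, (1 - q ^ (b + i)) / (1 - q ^ i)) =
    Pool.Agent.R859.QB.qb (b + k) k := by
  intro k
  induction k with
  | zero => rw [Pool.Agent.R859.QB.qb_zero]; rfl
  | succ k ih =>
    rw [Finset.prod_Icc_succ_top (by omega), ih, Pool.Agent.R859.QB.qb_eq (by omega),
      Pool.Agent.R859.QB.qb_eq (by omega)]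
    have e1 : b + k - k = b := by omega
    have e2 : b + (k + 1) - (k + 1) = b := by omega
    have e3 : b + (k + 1) = (b + k) + 1 := by ring
    have h1 := Pool.Agent.R859.QB.one_sub_q_mul (b + k + 1)
    have h2 := Pool.Agent.R859.QB.one_sub_q_mul (k + 1)
    have h1' : (1 - q ^ (b + k + 1) : RatFunc ℚ) =
      (1 - Pool.Agent.R859.QB.q) * Pool.Agent.R859.QB.qn (b + k + 1) := h1.symm
    have h2' : (1 - q ^ (k + 1) : RatFunc ℚ) =
      (1 - Pool.Agent.R859.QB.q) * Pool.Agent.R859.QB.qn (k + 1) := h2.symm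
    rw [e1, e2, e3, h1', h2', Pool.Agent.R859.QB.qf_succ, Pool.Agent.R859.QB.qf_succ]
    have f1 := Pool.Agent.R859.QB.qf_ne b
    have f2 := Pool.Agent.R859.QB.qf_ne k
    have f3 := Pool.Agent.R859.QB.qn_succ_ne k
    have f4 : (1 - Pool.Agent.R859.QB.q) ≠ 0 := by
      have := one_sub_ne one_ne_zero
      rw [pow_one] at this
      exact this
    field_simp

theorem qbinom_eq (N k : ℕ) : qbinom N k = Pool.Agent.R859.QB.qb N k := by
  rw [qbinom]
  split_ifs with h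
  · rw [prod_eq]
    congr 1
    omega
  · rw [Pool.Agent.R859.QB.qb_eq_zero (by omega)]

/-- For all `m = M + 1 ≥ 1`, positive `n_1, ..., n_m`, integers `j`, and `a, r ≥ 0` with
`a ≤ n_1`: `S = q^(-N) p(q)` for some `N` and some polynomial `p` with integer coefficients; and
if `0 ≤ j ≤ m`, then `S = q^(-N) p(q)` for some `N` and some polynomial `p` with nonnegative
integer coefficients. -/
theorem result (M : ℕ) (n : Fin (M + 1) → ℕ) (hn : ∀ i, 1 ≤ n i) (j : ℤ) (a r : ℕ)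
    (ha : a ≤ n 0) :
    (∃ (N : ℕ) (p : Polynomial ℤ), q ^ N * S n j a r =
      algebraMap (Polynomial ℚ) (RatFunc ℚ) (p.map (Int.castRingHom ℚ))) ∧
    (0 ≤ j → j ≤ (M + 1 : ℕ) → ∃ (N : ℕ) (p : Polynomial ℕ), q ^ N * S n j a r =
      algebraMap (Polynomial ℚ) (RatFunc ℚ) (p.map (Nat.castRingHom ℚ))) := by
  have hS : S n j a r = (∑ k ∈ Icc a (n 0), Pool.Agent.R859.QB.wt j r k *
      ∏ i, Pool.Agent.R859.QB.qb (n (i + 1) + n i) (k + n i)) /
      (Pool.Agent.R859.QB.qn (n (Fin.last M) + a) *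
        Pool.Agent.R859.QB.qb (n (Fin.last M) + n 0) (n 0 - a)) := by
    rw [S, qnum_eq, qbinom_eq]
    congr 1
    refine Finset.sum_congr rfl fun k _ => ?_
    rw [w, P, qnum_eq, qnum_eq]
    congr 1
    exact Finset.prod_congr rfl fun i _ => qbinom_eq _ _
  have h := Pool.Agent.R859.QB.main M n hn j a r ha
  rw [hS]
  refine ⟨h.1, fun h1 h2 => h.2 h1 ?_⟩
  push_cast at h2
  exact h2

end

end Pool.Agent.Results.MP_62f119_co.CyclicSum
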